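import Mathlib

set_option autoImplicit false

namespace Pool.Agent.Results.MP_2aa471_co.GridNumber

open Finset

/-- The `n`-dimensional infinite grid: vertex set `ℤ^n`, two points are adjacent iff they differ by
`1` in exactly one coordinate (i.e. their `ℓ₁` distance is `1`). -/
def grid (n : ℕ) : SimpleGraph (Fin n → ℤ) where
  Adj x y := ∑ i, |x i - y i| = 1
  symm := ⟨fun x y h => by
    rw [← h]
    exact Finset.sum_congr rfl fun i _ => abs_sub_comm _ _⟩
  loopless := ⟨fun x h => by simp at h⟩

/-- The vertices of `T` lie on a common geodesic of `G`. -/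
def OnGeodesic {V : Type} (G : SimpleGraph V) (T : Set V) : Prop :=
  ∃ (u v : V) (p : G.Walk u v), p.length = G.dist u v ∧ ∀ x ∈ T, x ∈ p.support

/-- `S` is a `k`-general position set: no `k` distinct vertices of `S` lie on a common geodesic. -/
def IsGenPos {V : Type} (G : SimpleGraph V) (k : ℕ) (S : Set V) : Prop :=
  ∀ T : Finset V, (T : Set V) ⊆ S → T.card = k → ¬ OnGeodesic G (T : Set V)

/-- `ℓ₁` distance -/
def L {n : ℕ} (x y : Fin n → ℤ) : ℕ := ∑ i, (x i - y i).natAbs

lemma L_cast {n : ℕ} (x y : Fin n → ℤ) : ((L x y : ℕ) : ℤ) = ∑ i, |x i - y i| := by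
  simp [L]

lemma L_self {n : ℕ} (x : Fin n → ℤ) : L x x = 0 := by simp [L]

lemma L_comm {n : ℕ} (x y : Fin n → ℤ) : L x y = L y x := by
  unfold L
  exact Finset.sum_congr rfl fun i _ => by rw [← Int.natAbs_neg]; congr 1; ring

lemma L_tri {n : ℕ} (x y z : Fin n → ℤ) : L x z ≤ L x y + L y z := by
  unfold L
  rw [← Finset.sum_add_distrib]
  exact Finset.sum_le_sum fun i _ => by omega

lemma L_eq_zero {n : ℕ} {x y : Fin n → ℤ} (h : L x y = 0) : x = y := by
  unfold L at h
  rw [Finset.sum_eq_zero_iff] at h
  funext i
  have := h i (Finset.mem_univ i)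
  omega

lemma adj_iff {n : ℕ} (x y : Fin n → ℤ) : (grid n).Adj x y ↔ L x y = 1 := by
  show (∑ i, |x i - y i| = 1) ↔ _
  rw [← L_cast]
  norm_cast

lemma walk_len {n : ℕ} {x y : Fin n → ℤ} (p : (grid n).Walk x y) : L x y ≤ p.length := by
  induction p with
  | nil => simp [L_self]
  | cons h p ih =>
    rw [SimpleGraph.Walk.length_cons]
    have := (adj_iff _ _).1 h
    have h2 := L_tri _ _ _ |>.trans (Nat.add_le_add this.le ih)
    omega

lemma exists_walk {n : ℕ} (d : ℕ) : ∀ x y : Fin n → ℤ, L x y = d →
    ∃ p : (grid n).Walk x y, p.length = d := by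
  induction d with
  | zero =>
    intro x y h
    obtain rfl := L_eq_zero h
    exact ⟨SimpleGraph.Walk.nil, rfl⟩
  | succ d ih =>
    intro x y h
    have hne : ∃ i, x i ≠ y i := by
      by_contra hcon
      push Not at hcon
      have : x = y := funext hcon
      rw [this, L_self] at h
      omega
    obtain ⟨i, hi⟩ := hne
    let z : Fin n → ℤ := Function.update x i (if x i < y i then x i + 1 else x i - 1)
    have hz : ∀ j, (x j - z j).natAbs = if j = i then 1 else 0 := by
      intro j
      by_cases hj : j = i
      · subst hj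
        simp only [z, Function.update_self, if_true]
        split_ifs <;> simp
      · simp [z, hj]
    have hzy : ∀ j, (z j - y j).natAbs + (if j = i then 1 else 0) = (x j - y j).natAbs := by
      intro j
      by_cases hj : j = i
      · subst hj
        simp only [z, Function.update_self, if_true]
        split_ifs with h1 <;> omega
      · simp [z, hj]
    have h1 : L x z = 1 := by
      unfold L
      rw [Finset.sum_congr rfl fun j _ => hz j]
      simp
    have h2 : L z y = d := by
      have : L z y + 1 = L x y := by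
        unfold L
        rw [← Finset.sum_congr rfl fun j _ => hzy j, Finset.sum_add_distrib]
        simp
      omega
    obtain ⟨p, hp⟩ := ih z y h2
    exact ⟨SimpleGraph.Walk.cons ((adj_iff _ _).2 h1) p, by simp [hp]⟩

lemma dist_eq {n : ℕ} (x y : Fin n → ℤ) : (grid n).dist x y = L x y := by
  obtain ⟨p, hp⟩ := exists_walk (L x y) x y rfl
  apply le_antisymm
  · rw [← hp]
    exact SimpleGraph.dist_le p
  · obtain ⟨q, hq⟩ := (p.reachable).exists_walk_length_eq_dist
    rw [← hq]
    exact walk_len q

/-- Two vertices of a geodesic split it. -/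
lemma geod_split {n : ℕ} {u v : Fin n → ℤ} (p : (grid n).Walk u v)
    (hp : p.length = (grid n).dist u v) {a b : Fin n → ℤ} (ha : a ∈ p.support)
    (hb : b ∈ p.support) :
    L u a + L a b + L b v = L u v ∨ L u b + L b a + L a v = L u v := by
  classical
  rw [dist_eq] at hp
  have h0 := p.take_spec ha
  have h0' : (p.takeUntil a ha).length + (p.dropUntil a ha).length = p.length := by
    rw [← SimpleGraph.Walk.length_append, h0]
  have hb' : b ∈ ((p.takeUntil a ha).append (p.dropUntil a ha)).support := by rw [h0]; exact hb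
  rw [SimpleGraph.Walk.mem_support_append_iff] at hb'
  rcases hb' with hb' | hb'
  · right
    set q := p.takeUntil a ha
    have h1 : (q.takeUntil b hb').length + (q.dropUntil b hb').length = q.length := by
      rw [← SimpleGraph.Walk.length_append, q.take_spec hb']
    have l1 := walk_len (q.takeUntil b hb')
    have l2 := walk_len (q.dropUntil b hb')
    have l3 := walk_len (p.dropUntil a ha)
    have t1 := L_tri u b v
    have t2 := L_tri b a v
    omega
  · left
    set q := p.dropUntil a ha
    have h1 : (q.takeUntil b hb').length + (q.dropUntil b hb').length = q.length := by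
      rw [← SimpleGraph.Walk.length_append, q.take_spec hb']
    have l1 := walk_len (q.takeUntil b hb')
    have l2 := walk_len (q.dropUntil b hb')
    have l3 := walk_len (p.takeUntil a ha)
    have t1 := L_tri u a v
    have t2 := L_tri a b v
    omega

lemma split_coord {n : ℕ} {u a b v : Fin n → ℤ} (h : L u a + L a b + L b v = L u v) (c : Fin n) :
    (u c ≤ v c → a c ≤ b c) ∧ (v c ≤ u c → b c ≤ a c) := by
  have hterm : ∀ i : Fin n, (u i - v i).natAbs ≤
      (u i - a i).natAbs + (a i - b i).natAbs + (b i - v i).natAbs := fun i => by omega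
  have heq : ∑ i, ((u i - a i).natAbs + (a i - b i).natAbs + (b i - v i).natAbs) =
      ∑ i, (u i - v i).natAbs := by
    rw [Finset.sum_add_distrib, Finset.sum_add_distrib]
    exact h
  have := (Finset.sum_eq_sum_iff_of_le (fun i _ => hterm i)).1 heq.symm c (Finset.mem_univ c)
  constructor <;> intro h1 <;> omega

/-! ### upper bound -/

/-- the sign pattern of `s`, with first sign `+` -/
def sg {m : ℕ} (s : Fin m → Bool) : Fin (m + 1) → ℤ :=
  Fin.cons 1 (fun i => if s i then 1 else -1)

lemma sg_zero {m : ℕ} (s : Fin m → Bool) : sg s 0 = 1 := rfl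

lemma sg_succ {m : ℕ} (s : Fin m → Bool) (i : Fin m) : sg s i.succ = if s i then 1 else -1 := by
  simp [sg]

lemma sg_cases {m : ℕ} (s : Fin m → Bool) (c : Fin (m + 1)) : sg s c = 1 ∨ sg s c = -1 := by
  refine Fin.cases (Or.inl rfl) (fun i => ?_) c
  rw [sg_succ]
  split_ifs <;> simp

/-- `x` is below `y` in the order of the pattern `s` -/
def le' {m : ℕ} (s : Fin m → Bool) (x y : Fin (m + 1) → ℤ) : Prop :=
  ∀ c, sg s c * x c ≤ sg s c * y c

lemma le'_antisymm {m : ℕ} {s : Fin m → Bool} {x y : Fin (m + 1) → ℤ} (h1 : le' s x y)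
    (h2 : le' s y x) : x = y := by
  funext c
  have a := h1 c
  have b := h2 c
  rcases sg_cases s c with h | h <;> rw [h] at a b <;> linarith

lemma le'_trans {m : ℕ} {s : Fin m → Bool} {x y z : Fin (m + 1) → ℤ} (h1 : le' s x y)
    (h2 : le' s y z) : le' s x z := fun c => (h1 c).trans (h2 c)

lemma le'_total {m : ℕ} (x y : Fin (m + 1) → ℤ) : ∃ s : Fin m → Bool, le' s x y ∨ le' s y x := by
  rcases le_total (x 0) (y 0) with h | h
  · refine ⟨fun i => decide (x i.succ ≤ y i.succ), Or.inl fun c => ?_⟩
    refine Fin.cases (by simp [sg_zero, h]) (fun i => ?_) c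
    rw [sg_succ]
    by_cases h1 : x i.succ ≤ y i.succ
    · simpa [h1] using h1
    · simp [h1]; omega
  · refine ⟨fun i => decide (y i.succ ≤ x i.succ), Or.inr fun c => ?_⟩
    refine Fin.cases (by simp [sg_zero, h]) (fun i => ?_) c
    rw [sg_succ]
    by_cases h1 : y i.succ ≤ x i.succ
    · simpa [h1] using h1
    · simp [h1]; omega

lemma L_add {m : ℕ} {s : Fin m → Bool} {x y z : Fin (m + 1) → ℤ} (h1 : le' s x y)
    (h2 : le' s y z) : L x y + L y z = L x z := by
  unfold L
  rw [← Finset.sum_add_distrib]
  refine Finset.sum_congr rfl fun c _ => ?_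
  have a := h1 c
  have b := h2 c
  rcases sg_cases s c with h | h <;> rw [h] at a b <;> omega

/-- A finite chain of the order of a pattern lies on a geodesic from its minimum to its maximum. -/
lemma chain_walk {m : ℕ} (s : Fin m → Bool) (N : ℕ) : ∀ C : Finset (Fin (m + 1) → ℤ),
    C.card = N + 1 → (∀ x ∈ C, ∀ y ∈ C, le' s x y ∨ le' s y x) →
    ∃ u ∈ C, ∃ v ∈ C, (∀ x ∈ C, le' s u x ∧ le' s x v) ∧
      ∃ p : (grid (m + 1)).Walk u v, p.length = L u v ∧ ∀ x ∈ C, x ∈ p.support := by
  classical
  induction N with
  | zero =>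
    intro C hC _
    obtain ⟨a, rfl⟩ := Finset.card_eq_one.1 hC
    refine ⟨a, by simp, a, by simp, ?_, SimpleGraph.Walk.nil, by simp [L_self], by simp⟩
    intro x hx
    rw [Finset.mem_singleton] at hx
    subst hx
    exact ⟨fun c => le_rfl, fun c => le_rfl⟩
  | succ N ih =>
    intro C hC hch
    -- maximum of C
    have hmax : ∃ v ∈ C, ∀ x ∈ C, le' s x v := by
      have hCne : C.Nonempty := by rw [← Finset.card_pos]; omega
      obtain ⟨v, hv, hvm⟩ := C.exists_max_image (fun x => ∑ c, sg s c * x c) hCne
      refine ⟨v, hv, fun x hx => ?_⟩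
      rcases hch x hx v hv with h | h
      · exact h
      · have h3 := hvm x hx
        have h4 : ∀ c ∈ (Finset.univ : Finset (Fin (m + 1))), sg s c * v c ≤ sg s c * x c :=
          fun c _ => h c
        have h5 := (Finset.sum_eq_sum_iff_of_le h4).1 (le_antisymm (Finset.sum_le_sum h4) h3)
        exact fun c => (h5 c (Finset.mem_univ c)).symm.le
    obtain ⟨v, hv, hvm⟩ := hmax
    have hC' : (C.erase v).card = N + 1 := by rw [Finset.card_erase_of_mem hv, hC]; rfl
    obtain ⟨u, hu, v', hv', hb, p, hp, hps⟩ := ih (C.erase v) hC'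
      (fun x hx y hy => hch x (Finset.mem_of_mem_erase hx) y (Finset.mem_of_mem_erase hy))
    have h1 : le' s u v' := (hb v' hv').1
    have h2 : le' s v' v := hvm v' (Finset.mem_of_mem_erase hv')
    obtain ⟨q, hq⟩ := exists_walk (L v' v) v' v rfl
    refine ⟨u, Finset.mem_of_mem_erase hu, v, hv, ?_, p.append q, ?_, ?_⟩
    · intro x hx
      refine ⟨?_, hvm x hx⟩
      by_cases hxv : x = v
      · subst hxv
        exact le'_trans h1 h2
      · exact (hb x (Finset.mem_erase.2 ⟨hxv, hx⟩)).1
    · rw [SimpleGraph.Walk.length_append, hp, hq, L_add h1 h2]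
    · intro x hx
      rw [SimpleGraph.Walk.mem_support_append_iff]
      by_cases hxv : x = v
      · subst hxv
        exact Or.inr (SimpleGraph.Walk.end_mem_support q)
      · exact Or.inl (hps x (Finset.mem_erase.2 ⟨hxv, hx⟩))

lemma chain_geod {m : ℕ} (s : Fin m → Bool) (C : Finset (Fin (m + 1) → ℤ)) (hC : C.Nonempty)
    (hch : ∀ x ∈ C, ∀ y ∈ C, le' s x y ∨ le' s y x) :
    OnGeodesic (grid (m + 1)) (C : Set (Fin (m + 1) → ℤ)) := by
  obtain ⟨N, hN⟩ : ∃ N, C.card = N + 1 := ⟨C.card - 1, by
    have := Finset.card_pos.2 hC; omega⟩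
  obtain ⟨u, -, v, -, -, p, hp, hps⟩ := chain_walk s N C hN hch
  exact ⟨u, v, p, by rw [dist_eq, hp], fun x hx => hps x hx⟩

theorem upper {m k : ℕ} (hk : 2 ≤ k) (S : Set (Fin (m + 1) → ℤ))
    (hS : IsGenPos (grid (m + 1)) k S) (T : Finset (Fin (m + 1) → ℤ)) (hT : (T : Set _) ⊆ S) :
    T.card ≤ (k - 1) ^ (2 ^ m) := by
  classical
  -- chains in T are short
  have hshort : ∀ (s : Fin m → Bool) (C : Finset (Fin (m + 1) → ℤ)), C ⊆ T →
      (∀ x ∈ C, ∀ y ∈ C, le' s x y ∨ le' s y x) → C.card ≤ k - 1 := by
    intro s C hCT hch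
    by_contra hcon
    push Not at hcon
    obtain ⟨C', hC'C, hC'⟩ := Finset.exists_subset_card_eq (show k ≤ C.card by omega)
    refine hS C' (fun x hx => hT (hCT (hC'C hx))) hC' (chain_geod s C' ?_ ?_)
    · rw [← Finset.card_pos]; omega
    · exact fun x hx y hy => hch x (hC'C hx) y (hC'C hy)
  let F : (Fin m → Bool) → (Fin (m + 1) → ℤ) → Finset (Finset (Fin (m + 1) → ℤ)) := fun s x =>
    T.powerset.filter fun C => (∀ y ∈ C, le' s y x ∧ y ≠ x) ∧
      ∀ y ∈ C, ∀ z ∈ C, le' s y z ∨ le' s z y
  let h : (Fin m → Bool) → (Fin (m + 1) → ℤ) → ℕ := fun s x => (F s x).sup Finset.card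
  have hlt : ∀ s x y, x ∈ T → y ∈ T → le' s x y → x ≠ y → h s x < h s y := by
    intro s x y hx hy hxy hne
    have hFx : (F s x).Nonempty := ⟨∅, by simp [F]⟩
    obtain ⟨C, hC, hCc⟩ := Finset.exists_mem_eq_sup (F s x) hFx Finset.card
    simp only [F, Finset.mem_filter, Finset.mem_powerset] at hC
    obtain ⟨hCT, hCx, hCch⟩ := hC
    have hxC : x ∉ C := fun hx' => (hCx x hx').2 rfl
    have hmem : insert x C ∈ F s y := by
      simp only [F, Finset.mem_filter, Finset.mem_powerset]
      refine ⟨Finset.insert_subset hx hCT, ?_, ?_⟩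
      · intro z hz
        rcases Finset.mem_insert.1 hz with rfl | hz
        · exact ⟨hxy, hne⟩
        · refine ⟨le'_trans (hCx z hz).1 hxy, ?_⟩
          rintro rfl
          exact hne (le'_antisymm hxy (hCx z hz).1)
      · intro z hz w hw
        rcases Finset.mem_insert.1 hz with hz' | hz' <;>
          rcases Finset.mem_insert.1 hw with hw' | hw'
        · rw [hz', hw']; exact Or.inl fun c => le_rfl
        · rw [hz']; exact Or.inr (hCx w hw').1
        · rw [hw']; exact Or.inl (hCx z hz').1
        · exact hCch z hz' w hw'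
    have h1 : (insert x C).card ≤ h s y := Finset.le_sup (f := Finset.card) hmem
    rw [Finset.card_insert_of_notMem hxC] at h1
    have h2 : h s x = C.card := hCc
    omega
  have hbd : ∀ s x, x ∈ T → h s x < k - 1 := by
    intro s x hx
    have hFx : (F s x).Nonempty := ⟨∅, by simp [F]⟩
    obtain ⟨C, hC, hCc⟩ := Finset.exists_mem_eq_sup (F s x) hFx Finset.card
    simp only [F, Finset.mem_filter, Finset.mem_powerset] at hC
    obtain ⟨hCT, hCx, hCch⟩ := hC
    have hxC : x ∉ C := fun hx' => (hCx x hx').2 rfl
    have h1 := hshort s (insert x C) (Finset.insert_subset hx hCT) (by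
      intro z hz w hw
      rcases Finset.mem_insert.1 hz with hz' | hz' <;>
        rcases Finset.mem_insert.1 hw with hw' | hw'
      · rw [hz', hw']; exact Or.inl fun c => le_rfl
      · rw [hz']; exact Or.inr (hCx w hw').1
      · rw [hw']; exact Or.inl (hCx z hz').1
      · exact hCch z hz' w hw')
    rw [Finset.card_insert_of_notMem hxC] at h1
    have h2 : h s x = C.card := hCc
    omega
  -- the labelling
  let lab : T → ((Fin m → Bool) → Fin (k - 1)) := fun x s => ⟨h s x.1, hbd s x.1 x.2⟩
  have hinj : Function.Injective lab := by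
    intro x y hxy
    by_contra hne
    have hne' : x.1 ≠ y.1 := fun h => hne (Subtype.ext h)
    obtain ⟨s, hs | hs⟩ := le'_total x.1 y.1
    · have := hlt s x.1 y.1 x.2 y.2 hs hne'
      have h2 := congrFun hxy s
      simp only [lab, Fin.mk.injEq] at h2
      omega
    · have := hlt s y.1 x.1 y.2 x.2 hs hne'.symm
      have h2 := congrFun hxy s
      simp only [lab, Fin.mk.injEq] at h2
      omega
  have := Fintype.card_le_of_injective lab hinj
  simpa using this

/-! ### lower bound -/

/-- a number with digits of absolute value at most `k - 1` in base `k` is smaller than the next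
power of `k` -/
lemma digits_lt (k : ℤ) (hk : 1 ≤ k) (d : ℕ → ℤ) (hd : ∀ j, |d j| ≤ k - 1) (J : ℕ) :
    |∑ j ∈ Finset.range J, d j * k ^ j| < k ^ J := by
  induction J with
  | zero => simp
  | succ J ih =>
    rw [Finset.sum_range_succ]
    have hkJ : 0 < k ^ J := by positivity
    have h1 : |d J * k ^ J| ≤ (k - 1) * k ^ J := by
      rw [abs_mul, abs_of_pos hkJ]
      exact mul_le_mul_of_nonneg_right (hd J) hkJ.le
    calc |∑ j ∈ Finset.range J, d j * k ^ j + d J * k ^ J|
        ≤ |∑ j ∈ Finset.range J, d j * k ^ j| + |d J * k ^ J| := abs_add_le _ _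
      _ < k ^ J + (k - 1) * k ^ J := by linarith
      _ = k ^ (J + 1) := by ring

/-- the sign of a number is the sign of its top digit -/
lemma top_digit (k : ℤ) (hk : 1 ≤ k) (d : ℕ → ℤ) (hd : ∀ j, |d j| ≤ k - 1) (N J : ℕ) (hJ : J < N)
    (htop : ∀ j, J < j → j < N → d j = 0) :
    (0 < d J → 0 < ∑ j ∈ Finset.range N, d j * k ^ j) ∧
    (d J < 0 → ∑ j ∈ Finset.range N, d j * k ^ j < 0) := by
  have hsum : ∑ j ∈ Finset.range N, d j * k ^ j =
      ∑ j ∈ Finset.range J, d j * k ^ j + d J * k ^ J := by
    rw [← Finset.sum_range_succ]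
    symm
    apply Finset.sum_subset
    · intro j hj; simp only [Finset.mem_range] at hj ⊢; omega
    · intro j hj hj'
      simp only [Finset.mem_range] at hj hj'
      rw [htop j (by omega) hj]; ring
  rw [hsum]
  have hkJ : 0 < k ^ J := by positivity
  have h1 := abs_lt.1 (digits_lt k hk d hd J)
  constructor
  · intro h
    have : 1 * k ^ J ≤ d J * k ^ J := mul_le_mul_of_nonneg_right h hkJ.le
    linarith [h1.1]
  · intro h
    have : d J * k ^ J ≤ (-1) * k ^ J := mul_le_mul_of_nonneg_right (by omega) hkJ.le
    linarith [h1.2]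

/-- the point with digit vector `x` -/
def pt {m : ℕ} (k N : ℕ) (e : ℕ → Fin m → Bool) (x : ℕ → ℤ) : Fin (m + 1) → ℤ :=
  fun c => ∑ j ∈ Finset.range N, (sg (e j) c * x j) * (k : ℤ) ^ j

theorem lower {m k : ℕ} (hk : 2 ≤ k) :
    ∃ S : Finset (Fin (m + 1) → ℤ), S.card = (k - 1) ^ (2 ^ m) ∧
      IsGenPos (grid (m + 1)) k (S : Set (Fin (m + 1) → ℤ)) := by
  classical
  set N := 2 ^ m with hN
  have hcard : Fintype.card (Fin m → Bool) = N := by simp [hN]
  let e : (Fin m → Bool) ≃ Fin N := Fintype.equivFinOfCardEq hcard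
  have hNpos : 0 < N := by positivity
  let e' : ℕ → Fin m → Bool := fun j => if h : j < N then e.symm ⟨j, h⟩ else e.symm ⟨0, hNpos⟩
  have he' : ∀ i j, i < N → j < N → e' i = e' j → i = j := by
    intro i j hi hj h
    simp only [e', hi, hj, dif_pos] at h
    have := e.symm.injective h
    simpa using this
  let ext : (Fin N → Fin (k - 1)) → ℕ → ℤ := fun x j => if h : j < N then ((x ⟨j, h⟩ : ℕ) : ℤ) else 0
  have hext : ∀ x y : Fin N → Fin (k - 1), ∀ j, |ext x j - ext y j| ≤ (k : ℤ) - 1 := by
    intro x y j
    simp only [ext]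
    split_ifs with h
    · have h1 := (x ⟨j, h⟩).2
      have h2 := (y ⟨j, h⟩).2
      rw [abs_le]
      constructor <;> omega
    · simp; omega
  let P : (Fin N → Fin (k - 1)) → (Fin (m + 1) → ℤ) := fun x => pt k N e' (ext x)
  -- comparison of two points
  have hcmp : ∀ x y : Fin N → Fin (k - 1), x ≠ y → ∃ J, ∃ hJ : J < N, x ⟨J, hJ⟩ ≠ y ⟨J, hJ⟩ ∧
      ((∀ c, 0 < sg (e' J) c * (P y c - P x c)) ∨ (∀ c, sg (e' J) c * (P y c - P x c) < 0)) := by
    intro x y hxy
    have hne : ((Finset.range N).filter (fun j => ext x j ≠ ext y j)).Nonempty := by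
      by_contra hemp
      rw [Finset.not_nonempty_iff_eq_empty, Finset.filter_eq_empty_iff] at hemp
      apply hxy
      funext j
      have := hemp (Finset.mem_range.2 j.2)
      simp only [ext, j.2, dif_pos, not_not] at this
      exact Fin.ext (by exact_mod_cast this)
    set J := ((Finset.range N).filter (fun j => ext x j ≠ ext y j)).max' hne with hJdef
    have hJm := Finset.max'_mem _ hne
    rw [← hJdef, Finset.mem_filter, Finset.mem_range] at hJm
    obtain ⟨hJ, hJne⟩ := hJm
    have htop : ∀ j, J < j → j < N → ext x j = ext y j := by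
      intro j h1 h2
      by_contra h3
      have := Finset.le_max' ((Finset.range N).filter (fun j => ext x j ≠ ext y j)) j
        (by rw [Finset.mem_filter, Finset.mem_range]; exact ⟨h2, h3⟩)
      omega
    refine ⟨J, hJ, ?_, ?_⟩
    · intro h
      apply hJne
      simp only [ext, hJ, dif_pos, h]
    · have hk1 : (1 : ℤ) ≤ k := by omega
      have key : ∀ c, sg (e' J) c * (P y c - P x c) =
          ∑ j ∈ Finset.range N, (sg (e' J) c * sg (e' j) c * (ext y j - ext x j)) * (k : ℤ) ^ j := by
        intro c
        simp only [P, pt]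
        rw [← Finset.sum_sub_distrib, Finset.mul_sum]
        refine Finset.sum_congr rfl fun j _ => ?_
        ring
      have hbd : ∀ c j, |sg (e' J) c * sg (e' j) c * (ext y j - ext x j)| ≤ (k : ℤ) - 1 := by
        intro c j
        have h := hext y x j
        have h3 : ∀ (s : Fin m → Bool) (c : Fin (m + 1)), |sg s c| = 1 := by
          intro s c
          rcases sg_cases s c with h1 | h1 <;> rw [h1] <;> norm_num
        rw [abs_mul, abs_mul, h3, h3, one_mul, one_mul]
        exact h
      have hsq : ∀ c, sg (e' J) c * sg (e' J) c = 1 := by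
        intro c
        rcases sg_cases (e' J) c with h1 | h1 <;> rw [h1] <;> norm_num
      have htd := fun c => top_digit (k : ℤ) hk1
        (fun j => sg (e' J) c * sg (e' j) c * (ext y j - ext x j)) (hbd c) N J hJ
        (fun j h1 h2 => by simp only [htop j h1 h2]; ring)
      rcases lt_or_gt_of_ne (fun h => hJne h.symm : ext y J ≠ ext x J) with h | h
      · right
        intro c
        rw [key c]
        exact (htd c).2 (by simp only [hsq c]; linarith)
      · left
        intro c
        rw [key c]
        exact (htd c).1 (by simp only [hsq c]; linarith)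
  have hinj : Function.Injective P := by
    intro x y hxy
    by_contra hne
    obtain ⟨J, hJ, -, h⟩ := hcmp x y hne
    rw [hxy] at h
    rcases h with h | h <;> simpa using h 0
  refine ⟨Finset.univ.image P, ?_, ?_⟩
  · rw [Finset.card_image_of_injective _ hinj]
    simp
  · intro T hT hTk hgeo
    obtain ⟨u, v, p, hp, hps⟩ := hgeo
    -- digit vectors of the points of T
    haveI : NeZero (k - 1) := ⟨by omega⟩
    have hpre : ∀ a ∈ T, ∃ x, P x = a := by
      intro a ha
      have := hT ha
      simpa using this
    choose! D hD using hpre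
    let s0 : Fin m → Bool := fun i => decide ((u i.succ ≤ v i.succ) ↔ (u 0 ≤ v 0))
    have hone : ∀ a ∈ T, ∀ b ∈ T, a ≠ b → L u a + L a b + L b v = L u v →
        D a (e s0) ≠ D b (e s0) := by
      intro a ha b hb hab hL
      have hDne : D a ≠ D b := fun h => hab (by rw [← hD a ha, ← hD b hb, h])
      obtain ⟨J, hJ, hJne, hs⟩ := hcmp (D a) (D b) hDne
      rw [hD a ha, hD b hb] at hs
      have hco := fun c => split_coord hL c
      have heJ : e' J = s0 := by
        funext i
        rcases hs with hs | hs
        · have h0 := hs 0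
          rw [sg_zero] at h0
          have hu0 : u 0 ≤ v 0 := by
            by_contra hcon
            have := (hco 0).2 (by omega)
            omega
          have hi := hs i.succ
          rw [sg_succ] at hi
          cases hb' : e' J i
          · rw [hb'] at hi
            simp only [Bool.false_eq_true, if_false] at hi
            have : ¬ (u i.succ ≤ v i.succ) := fun hcon => by
              have := (hco i.succ).1 hcon
              omega
            simp [s0, this, hu0]
          · rw [hb'] at hi
            simp only [if_true] at hi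
            have : u i.succ ≤ v i.succ := by
              by_contra hcon
              have := (hco i.succ).2 (by omega)
              omega
            simp [s0, this, hu0]
        · have h0 := hs 0
          rw [sg_zero] at h0
          have hu0 : ¬ (u 0 ≤ v 0) := fun hcon => by
            have := (hco 0).1 hcon
            omega
          have hi := hs i.succ
          rw [sg_succ] at hi
          cases hb' : e' J i
          · rw [hb'] at hi
            simp only [Bool.false_eq_true, if_false] at hi
            have : u i.succ ≤ v i.succ := by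
              by_contra hcon
              have := (hco i.succ).2 (by omega)
              omega
            simp [s0, this, hu0]
          · rw [hb'] at hi
            simp only [if_true] at hi
            have : ¬ (u i.succ ≤ v i.succ) := fun hcon => by
              have := (hco i.succ).1 hcon
              omega
            simp only [s0, this, hu0, decide_true, iff_self]
      have hJe : e s0 = ⟨J, hJ⟩ := by
        rw [← heJ]
        simp only [e', hJ, dif_pos, Equiv.apply_symm_apply]
      rw [hJe]
      exact hJne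
    have hall : ∀ a ∈ T, ∀ b ∈ T, a ≠ b → D a (e s0) ≠ D b (e s0) := by
      intro a ha b hb hab
      rcases geod_split p hp (hps a ha) (hps b hb) with h | h
      · exact hone a ha b hb hab h
      · exact (hone b hb a ha hab.symm h).symm
    have hle : T.card ≤ (Finset.univ : Finset (Fin (k - 1))).card := by
      apply Finset.card_le_card_of_injOn (fun a => D a (e s0)) (fun a _ => Finset.mem_univ _)
      intro a ha b hb hab
      by_contra hne
      exact hall a ha b hb hne hab
    rw [Finset.card_univ, Fintype.card_fin] at hle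
    omega

/-- For all `k ≥ 2` and `n ≥ 1` the `k`-general position number of the `n`-dimensional infinite grid
is `(k - 1) ^ (2 ^ (n - 1))`: every `k`-general position set is finite with at most that many
elements, and some `k`-general position set has exactly that many. -/
theorem result (k n : ℕ) (hk : 2 ≤ k) (hn : 1 ≤ n) :
    (∀ S : Set (Fin n → ℤ), IsGenPos (grid n) k S →
      S.Finite ∧ S.ncard ≤ (k - 1) ^ (2 ^ (n - 1))) ∧
    ∃ S : Set (Fin n → ℤ), IsGenPos (grid n) k S ∧ S.Finite ∧
      S.ncard = (k - 1) ^ (2 ^ (n - 1)) := by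
  obtain ⟨m, rfl⟩ : ∃ m, n = m + 1 := ⟨n - 1, by omega⟩
  simp only [Nat.add_sub_cancel]
  constructor
  · intro S hS
    have hfin : S.Finite := by
      by_contra hinf
      obtain ⟨T, hT, hTc⟩ := Set.Infinite.exists_subset_card_eq hinf ((k - 1) ^ (2 ^ m) + 1)
      have := upper hk S hS T hT
      omega
    refine ⟨hfin, ?_⟩
    have := upper hk S hS hfin.toFinset (by simp)
    rwa [Set.ncard_eq_toFinset_card S hfin]
  · obtain ⟨S, hS, hS'⟩ := lower (m := m) hk
    exact ⟨S, hS', S.finite_toSet, by rw [Set.ncard_coe_finset, hS]⟩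

end Pool.Agent.Results.MP_2aa471_co.GridNumber
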